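import Pool.Agent.MNM.Main

/-! MP_84b2ae_lc: the asymmetric case for theories with a degree one formula whose solutions in some
model are infinitely many and all algebraic; no assumption on the multiplicity. -/

open FirstOrder FirstOrder.Language

namespace Pool.Agent.Results.MP_84b2ae_lc.AsymmetricAlgebraic

theorem result :
    ∀ (L : FirstOrder.Language.{0, 0}) (T : L.Theory),
      L.card ≤ Cardinal.aleph0 → T.IsComplete →
      ∀ (M : T.ModelType.{0, 0, 0}) (δ : L.Formula Unit) (ψ : L.Formula (Fin 2)),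
        {x : M | δ.Realize (fun _ => x)}.Infinite →
        (∀ x : M, δ.Realize (fun _ => x) →
          ∃ φ : L.Formula Unit, φ.Realize (fun _ => x) ∧ {y : M | φ.Realize (fun _ => y)}.Finite) →
        (∀ φ : L.Formula Unit,
          {x : M | δ.Realize (fun _ => x) ∧ φ.Realize (fun _ => x)}.Finite ∨
          {x : M | δ.Realize (fun _ => x) ∧ ¬ φ.Realize (fun _ => x)}.Finite) →
        (∀ y : M, δ.Realize (fun _ => y) →
          {x : M | δ.Realize (fun _ => x) ∧ ψ.Realize ![x, y]}.Finite) →
        {x : M | δ.Realize (fun _ => x) ∧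
          {y : M | δ.Realize (fun _ => y) ∧ ψ.Realize ![x, y]}.Infinite}.Infinite →
        ∀ n : ℕ, ∃ N : Fin n → T.ModelType.{0, 0, 0},
          (∀ i, Countable (N i)) ∧
          ∀ i j, i ≠ j → IsEmpty ((N i) ≃[L] (N j)) :=
  fun _ T hL _ M δ ψ h1 h2 h3 h4 h5 n => Pool.Agent.MNM.main_asym hL T M δ ψ h1 h2 h3 h4 h5 n

end Pool.Agent.Results.MP_84b2ae_lc.AsymmetricAlgebraic
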