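import Pool.Agent.MNM.MainC

/-! MP_84b2ae_lc: the pregeometric case (in particular all stable theories) for theories with an
infinite definable set of algebraic elements. -/

open FirstOrder FirstOrder.Language

namespace Pool.Agent.Results.MP_84b2ae_lc.NoEscapingFamily

theorem result :
    ∀ (L : FirstOrder.Language.{0, 0}) (T : L.Theory),
      L.card ≤ Cardinal.aleph0 → T.IsComplete →
      ∀ (M : T.ModelType.{0, 0, 0}) (δ : L.Formula Unit),
        {x : M | δ.Realize (fun _ => x)}.Infinite →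
        (∀ x : M, δ.Realize (fun _ => x) →
          ∃ φ : L.Formula Unit, φ.Realize (fun _ => x) ∧ {y : M | φ.Realize (fun _ => y)}.Finite) →
        (∀ (n : ℕ) (η : L.Formula (Fin n ⊕ Unit)), ∃ F : Set M, F.Finite ∧
          (∀ y ∈ F, δ.Realize (fun _ => y)) ∧
          ∀ m : Fin n → M, (∀ i, δ.Realize (fun _ => m i)) →
            {y : M | δ.Realize (fun _ => y) ∧ η.Realize (Sum.elim m (fun _ => y))}.Infinite →
            ∃ y ∈ F, η.Realize (Sum.elim m (fun _ => y))) →
        ∀ n : ℕ, ∃ N : Fin n → T.ModelType.{0, 0, 0},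
          (∀ i, Countable (N i)) ∧
          ∀ i j, i ≠ j → IsEmpty ((N i) ≃[L] (N j)) :=
  fun _ T hL _ M δ h1 h2 h3 n => Pool.Agent.MNM.main_pregeom hL T M δ h1 h2 h3 n

end Pool.Agent.Results.MP_84b2ae_lc.NoEscapingFamily
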